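import Pool.Agent.Helper53.UR.Goals

/-!
# PROJECT UR (MP_c578c8_lc), packet FUN: unambiguity
-/

set_option autoImplicit false

namespace Pool.Agent.Helper33.UR

open Pool.Agent.Helper53.UR
open Pool.Agent.Helper1.TE (Gad app cif NumMach codeB USPACE NUnamb NStep NTM)
open Pool.Agent.Helper65.LinSpace (dig nrec ifz eq01 le01 lt01 Ctx LS num)
open Pool.Agent.Helper53.CTG (De De.k De.m De.e De.f De.v De.i De.T sub root Nt Hb Et Eb Fb Gb Pb
  bigT bigX bigS bigA gadC ev op runs toF dec runs_add runs_congr runs_succ_eq_some)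

variable {β : Type} [Ctx β]

theorem inv_of_reach (hStep : InvStep) (M : UM β) (hM : M.Ok)
    (w : List Bool) (x y : Sta β) (hx : M.Inv w x)
    (h : Relation.ReflTransGen (fun x x' => ∃ γ < 2, x' = M.mach.nx w x γ) x y) :
    M.Inv w y := by
  induction h with
  | refl => exact hx
  | tail _ h2 ih =>
    obtain ⟨γ, hγ, rfl⟩ := h2
    exact hStep M hM w _ γ hγ ih

theorem inv_start (M : UM β) (w : List Bool) : M.Inv w M.mach.start := by
  have h := UM.Inv.m0 (M := M) (w := w) 0 (Nat.zero_le _)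
  exact h

theorem eq_accS (M : UM β) (w : List Bool) (x : Sta β)
    (hx : M.Inv w x) (hacc : M.mach.acc x ≠ 0) : x = accS := by
  have h7 : x.mo = 3 := by
    by_contra hne
    apply hacc
    change eq01 x.mo 3 = 0
    unfold eq01
    rw [if_neg hne]
  cases hx with
  | m3 _ => rfl
  | _ => exact absurd h7 (by simp [Sta.mo, rejS, mainS, rdS, ctS])

theorem rej_nx (M : UM β) (w : List Bool) (γ : ℕ) :
    M.mach.nx w rejS γ = rejS := by
  change M.nextM rejS (codeB w[M.mach.addr rejS]?) γ = rejS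
  have h1 : M.nextN rejS (codeB w[M.mach.addr rejS]?) γ = rejS := by
    unfold UM.nextN
    simp [cif, Sta.mo, rejS]
  unfold UM.nextM
  rw [h1]
  unfold cif
  split_ifs <;> rfl

theorem rej_reach (M : UM β) (w : List Bool) (y : Sta β)
    (h : Relation.ReflTransGen (fun x x' => ∃ γ < 2, x' = M.mach.nx w x γ) rejS y) :
    y = rejS := by
  induction h with
  | refl => rfl
  | tail _ h2 ih =>
    obtain ⟨γ, _, rfl⟩ := h2
    rw [ih]
    exact rej_nx M w γ

/-- A complete run from three parts. -/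
theorem full_run {S : Type} (step : ℕ → ℕ → S → Option S) (B M τ g' : ℕ) (s0 s E : S)
    (γ0 γt : ℕ → ℕ) (hM : τ < M) (h0 : ∀ t, γ0 t < B) (ht : ∀ t, γt t < B) (hg : g' < B)
    (r0 : runs step γ0 τ s0 = some s) (r1 : step τ g' s = some E)
    (r2 : (runs (fun τ' => step (τ + 1 + τ')) γt (M - (τ + 1)) E).isSome) :
    ∃ γ : ℕ → ℕ, (∀ t, γ t < B) ∧ (runs step γ M s0).isSome ∧ γ τ = g' := by
  refine ⟨fun t => if t < τ then γ0 t else if t = τ then g' else γt (t - (τ + 1)),
    fun t => ?_, ?_, ?_⟩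
  · dsimp only
    split_ifs
    · exact h0 t
    · exact hg
    · exact ht _
  · have e : M = (τ + 1) + (M - (τ + 1)) := by omega
    rw [e, runs_add]
    have a1 : runs step (fun t => if t < τ then γ0 t else if t = τ then g' else γt (t - (τ + 1)))
        (τ + 1) s0 = some E := by
      rw [runs_succ_eq_some]
      refine ⟨s, ?_, ?_⟩
      · rw [← r0]
        apply runs_congr
        intro t ht'
        rw [if_pos ht']
      · rw [if_neg (lt_irrefl τ), if_pos rfl]
        exact r1
    rw [a1]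
    change (runs _ _ (M - (τ + 1)) E).isSome
    rw [runs_congr (γ' := γt) (step' := fun τ' => step (τ + 1 + τ'))]
    · exact r2
    · intro t _
      rw [if_neg (by omega), if_neg (by omega), Nat.add_sub_cancel_left]
  · dsimp only
    rw [if_neg (lt_irrefl τ), if_pos rfl]

theorem gq_zero (M : UM β) (x : Sta β) (h1 : x.mo ≠ 1) (h2 : x.mo ≠ 2) : M.gq x = 0 := by
  unfold UM.gq eq01
  rw [if_neg h1, if_neg h2, Nat.zero_mul, Nat.zero_mul]

/-- A complete run gives the right test. -/
theorem tst_of_run (hACC : AccOK) (hFX : FXOK) (M : UM β) (hM : M.Ok) (w : List Bool) (o : β)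
    (ρ : ℕ) (hI : M.Inv w (mainS o ρ 0 0 0 (root (M.N o) (M.q o)) 0 0 0))
    (R : Relation.ReflTransGen (NStep M.mach w)
      (mainS o ρ 0 0 0 (root (M.N o) (M.q o)) 0 0 0) accS) :
    lt01 0 (M.ts o (ev (M.t o) (M.q o) (M.c o) (M.N o) 1 0)) = ρ := by
  obtain ⟨γ, hγ, hr⟩ := (hFX M hM w o ρ 0 0 0 (root (M.N o) (M.q o)) 0 0 0 hI R).2 (Nat.zero_le _)
  have h0 : toF (M.N o) (M.q o) (M.b o) 0 0 = fun _ => (0, 0) := by
    funext j
    simp [toF, dig]
  rw [h0, Nat.sub_zero] at hr
  have hr' : (runs (M.opM o ρ) γ (13 ^ Nt (M.N o) (M.q o)) (fun _ => (0, 0), 0)).isSome := by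
    rw [runs_congr (γ' := γ) (step' := fun τ' => M.opM o ρ (0 + τ'))]
    · exact hr
    · intro t _
      rw [Nat.zero_add]
  obtain ⟨s', hs'⟩ := Option.isSome_iff_exists.1 hr'
  have h1 := (hACC M hM o ρ).1.1 ⟨s', γ, hγ, hs'⟩
  by_contra hne
  apply h1
  unfold UM.tst eq01
  rw [if_neg hne]

theorem gFUN : GoalFUN := by
  intro hACC hFX hStep hMach β _ M hM w x y y' hR hacc R0 a0 R1 a1
  have hxI : M.Inv w x := inv_of_reach hStep M hM w _ x (inv_start M w) hR
  have hmo3 : x.mo ≠ 3 := by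
    intro h3
    apply absurd hacc
    change eq01 x.mo 3 ≠ 0
    rw [h3]
    decide
  have I0 := hStep M hM w x 0 (by norm_num) hxI
  have I1 := hStep M hM w x 1 (by norm_num) hxI
  have y0 : y = accS := eq_accS M w y (inv_of_reach hStep M hM w _ y I0 R0) a0
  have y1 : y' = accS := eq_accS M w y' (inv_of_reach hStep M hM w _ y' I1 R1) a1
  subst y0
  subst y1
  by_cases hq : M.gq x = 0
  · -- the successor for `1` is rejecting
    have h1 : M.mach.nx w x 1 = rejS := by
      change M.nextM x (codeB w[M.mach.addr x]?) 1 = rejS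
      unfold UM.nextM
      rw [hq]
      have : eq01 x.mo 3 = 0 := by
        unfold eq01
        rw [if_neg hmo3]
      rw [this]
      rfl
    rw [h1] at R1
    have h2 := rej_reach M w _ R1
    have h3 := congrArg Sta.mo h2
    simp [accS, rejS, Sta.mo] at h3
  · -- a guess
    have hgq : M.gq x = eq01 x.mo 1 * eq01 (M.h x.o) 0 +
      eq01 x.mo 2 * (le01 (Nt (M.N x.o) (M.q x.o)) x.u *
      lt01 x.u (Nt (M.N x.o) (M.q x.o) + 3 * M.b x.o)) := rfl
    cases hxI with
    | rej => exact hq (gq_zero M _ (by simp [Sta.mo, rejS]) (by simp [Sta.mo, rejS]))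
    | m0 u hu => exact hq (gq_zero M _ (by simp [Sta.mo, rdS]) (by simp [Sta.mo, rdS]))
    | m1 i hi =>
      set o := M.orun (num w) i with ho
      have hh : M.h o = 0 := by
        by_contra hne
        apply hq
        rw [hgq]
        simp [Sta.mo, Sta.o, ctS, eq01, hne]
      have hgq1 : M.gq (ctS o) = 1 := by
        change eq01 1 1 * eq01 (M.h o) 0 + eq01 1 2 * _ = 1
        simp [eq01, hh]
      have hN : ∀ yy γ, M.nextN (ctS o) yy γ =
          mainS o γ 0 0 0 (root (M.N o) (M.q o)) 0 0 0 := by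
        intro yy γ
        unfold UM.nextN
        simp [cif, Sta.mo, Sta.o, ctS, hh]
      have n0 : M.mach.nx w (ctS o) 0 = mainS o 0 0 0 0 (root (M.N o) (M.q o)) 0 0 0 := by
        change M.nextM (ctS o) (codeB w[M.mach.addr (ctS o)]?) 0 = _
        unfold UM.nextM
        rw [hgq1, hN]
        rfl
      have n1 : M.mach.nx w (ctS o) 1 = mainS o 1 0 0 0 (root (M.N o) (M.q o)) 0 0 0 := by
        change M.nextM (ctS o) (codeB w[M.mach.addr (ctS o)]?) 1 = _
        unfold UM.nextM
        rw [hgq1, hN]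
        rfl
      rw [n0] at R0 I0
      rw [n1] at R1 I1
      have t0 := tst_of_run hACC hFX M hM w o 0 I0 R0
      have t1 := tst_of_run hACC hFX M hM w o 1 I1 R1
      rw [t0] at t1
      exact absurd t1 (by norm_num)
    | m2 i ρ u τ g D X S A o ho h hρ hτ hu hg hD hX hS hC =>
      have hu1' : Nt (M.N o) (M.q o) ≤ u := by
        by_contra hne
        apply hq
        rw [hgq]
        simp [Sta.mo, Sta.o, Sta.u, mainS, eq01, le01, hne]
      have hu2' : u < Nt (M.N o) (M.q o) + 3 * M.b o := by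
        by_contra hne
        apply hq
        rw [hgq]
        simp [Sta.mo, Sta.o, Sta.u, mainS, eq01, lt01, hne]
      have hgq1 : M.gq (mainS o ρ u τ g D X S A) = 1 := by
        change eq01 2 1 * eq01 (M.h o) 0 + eq01 2 2 * (le01 (Nt (M.N o) (M.q o)) u *
          lt01 u (Nt (M.N o) (M.q o) + 3 * M.b o)) = 1
        unfold lt01 eq01 le01
        rw [if_pos hu1', if_pos hu2', if_pos rfl, if_neg (by norm_num)]
        norm_num
      have hN : ∀ yy γ, M.nextN (mainS o ρ u τ g D X S A) yy γ =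
          mainS o ρ (u + 1) τ (2 * g + γ) D X S A := by
        intro yy γ
        have hne1 : Nt (M.N o) (M.q o) - u = 0 := by omega
        have hne2 : Nt (M.N o) (M.q o) + 3 * M.b o - u ≠ 0 := by omega
        unfold UM.nextN
        simp [cif, Sta.mo, Sta.u, Sta.τ, Sta.g, Sta.ρ, Sta.o,
          Sta.D, Sta.X, Sta.S, Sta.A, mainS, hne1, hne2]
      have n0 : M.mach.nx w (mainS o ρ u τ g D X S A) 0 =
          mainS o ρ (u + 1) τ (2 * g + 0) D X S A := by
        change M.nextM (mainS o ρ u τ g D X S A) (codeB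
          w[M.mach.addr (mainS o ρ u τ g D X S A)]?) 0 = _
        unfold UM.nextM
        rw [hgq1, hN]
        rfl
      have n1 : M.mach.nx w (mainS o ρ u τ g D X S A) 1 =
          mainS o ρ (u + 1) τ (2 * g + 1) D X S A := by
        change M.nextM (mainS o ρ u τ g D X S A) (codeB
          w[M.mach.addr (mainS o ρ u τ g D X S A)]?) 1 = _
        unfold UM.nextM
        rw [hgq1, hN]
        rfl
      rw [n0] at R0 I0
      rw [n1] at R1 I1
      obtain ⟨g0, hg0, e0, E0, s0, γ0, b0, r0⟩ := (hFX M hM w o ρ (u + 1) τ (2 * g + 0)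
        D X S A I0 R0).1 (by omega)
      obtain ⟨g1, hg1, e1, E1, s1, γ1, b1, r1⟩ := (hFX M hM w o ρ (u + 1) τ (2 * g + 1)
        D X S A I1 R1).1 (by omega)
      obtain ⟨γi, bi, ri⟩ := hC
      obtain ⟨Γ0, B0, F0, G0⟩ := full_run (M.opM o ρ) (8 ^ M.b o) (13 ^ Nt (M.N o) (M.q o)) τ
        g0 _ _ E0 γi γ0 hτ bi b0 hg0 ri s0 r0
      obtain ⟨Γ1, B1, F1, G1⟩ := full_run (M.opM o ρ) (8 ^ M.b o) (13 ^ Nt (M.N o) (M.q o)) τ
        g1 _ _ E1 γi γ1 hτ bi b1 hg1 ri s1 r1
      have hgg := (hACC M hM o ρ).2 Γ0 Γ1 B0 B1 F0 F1 τ hτ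
      rw [G0, G1] at hgg
      rw [hgg, e1] at e0
      omega
    | m3 h => exact hq (gq_zero M _ (by simp [Sta.mo, accS]) (by simp [Sta.mo, accS]))

end Pool.Agent.Helper33.UR
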